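import Mathlib
import Pool.Agent.H744R2.KZ.Props

/-!
Task N_comm: the relative commutant of a halving.
-/

open scoped ComplexOrder InnerProductSpace ComplexConjugate Topology
open Finset Filter

noncomputable section

namespace H744R2.KZ

open H759R2.Kad

universe u

namespace NCommAux398

variable {H : Type u} [NormedAddCommGroup H] [InnerProductSpace ℂ H] [CompleteSpace H]

/-- The relative commutant of `v` and `v*`. -/
def rcv (M : VonNeumannAlgebra H) (v : H →L[ℂ] H) : VonNeumannAlgebra H where
  toStarSubalgebra := StarSubalgebra.centralizer ℂ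
    (Set.centralizer (M : Set (H →L[ℂ] H)) ∪ {v})
  centralizer_centralizer' := by
    change Set.centralizer (Set.centralizer (StarSubalgebra.centralizer ℂ
      (Set.centralizer (M : Set (H →L[ℂ] H)) ∪ {v}) : Set (H →L[ℂ] H))) = _
    rw [StarSubalgebra.coe_centralizer]
    rw [Set.centralizer_centralizer_centralizer]
    rfl

theorem mem_rcv {M : VonNeumannAlgebra H} {v : H →L[ℂ] H} {x : H →L[ℂ] H} :
    x ∈ rcv M v ↔ x ∈ M ∧ x * v = v * x ∧ x * star v = star v * x := by
  have h1 : x ∈ rcv M v ↔ x ∈ StarSubalgebra.centralizer ℂ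
    (Set.centralizer (M : Set (H →L[ℂ] H)) ∪ {v}) := Iff.rfl
  rw [h1, StarSubalgebra.mem_centralizer_iff]
  constructor
  · intro h
    refine ⟨?_, ?_, ?_⟩
    · have : x ∈ Set.centralizer (Set.centralizer (M : Set (H →L[ℂ] H))) := by
        intro g hg
        exact (h g (Or.inl hg)).1
      rw [VonNeumannAlgebra.centralizer_centralizer] at this
      exact this
    · exact ((h v (Or.inr rfl)).1).symm
    · exact ((h v (Or.inr rfl)).2).symm
  · rintro ⟨h2, h3, h3'⟩ g hg
    rcases hg with hg | hg
    · refine ⟨?_, ?_⟩
      · exact (hg x h2).symm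
      · have := hg (star x) (star_mem (S := VonNeumannAlgebra H) h2)
        have h4 := congrArg star this
        simpa [star_mul] using h4
    · rw [Set.mem_singleton_iff] at hg
      subst hg
      exact ⟨h3.symm, h3'.symm⟩

section rel

variable {z v : H →L[ℂ] H} (hz : IsPr z) (hzv : z * v = v * z) (h0 : v * v = 0)
  (h1 : star v * v + v * star v = z)
include hz hzv h0 h1

omit h0 h1 in
theorem star_z_comm : star v * z = z * star v := by
  have := congrArg star hzv
  rw [star_mul, star_mul, hz.1] at this
  exact this

theorem vz : v * z = v := by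
  have h0' : star v * star v = 0 := by rw [← star_mul, h0, star_zero]
  have hzz := hz.2
  -- A = (1 - z) v* v
  have hA : star (v - v * z) * (v - v * z) = 0 := by
    have e1 : star (v - v * z) * (v - v * z) = star v * v - star v * v * z := by
      rw [star_sub, star_mul, hz.1, ← star_z_comm hz hzv]
      have : (star v - star v * z) * (v - v * z) =
        star v * v - star v * (v * z) - star v * (z * v) + star v * (z * v * z) := by
        noncomm_ring
      rw [this, hzv, mul_assoc v z z, hzz]
      noncomm_ring
    have e2 : star v * v * z = star v * v * (star v * v) := by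
      rw [← h1, mul_add, mul_assoc (star v) v (v * star v), ← mul_assoc v v (star v), h0, zero_mul,
        mul_zero, add_zero]
    have e3 : star v * v * (star v * v) * z = star v * v * (star v * v) := by
      -- from z * z = z and e2
      have : star v * v * z * z = star v * v * z := by rw [mul_assoc, hzz]
      rw [e2] at this
      exact this
    -- A = v*v - (v*v)^2 satisfies A z = 0 and A * A = A*(...)..., use A (1 - z) = A, A = v*v (1-z)
    set A := star v * v - star v * v * z with hAdef
    have hAz : A * z = 0 := by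
      rw [hAdef, sub_mul, mul_assoc (star v * v) z z, hzz, sub_self]
    have hAsa : star A = A := by
      rw [hAdef, star_sub, star_mul, star_mul, star_mul, hz.1, star_star]
      congr 1
      rw [← mul_assoc, ← star_z_comm hz hzv, mul_assoc, hzv, ← mul_assoc]
    have hAA : A * A = 0 := by
      have hAv : A * (star v * v) = A * z := by
        rw [← h1, mul_add]
        have : A * (v * star v) = 0 := by
          rw [hAdef, sub_mul]
          have t1 : star v * v * (v * star v) = 0 := by
            rw [mul_assoc (star v) v (v * star v), ← mul_assoc v v (star v), h0, zero_mul, mul_zero]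
          have t2 : star v * v * z * (v * star v) = 0 := by
            have : z * (v * star v) = (v * star v) * z := by
              rw [← mul_assoc, hzv, mul_assoc, ← star_z_comm hz hzv, mul_assoc]
            rw [mul_assoc (star v * v) z, this, ← mul_assoc, t1, zero_mul]
          rw [t1, t2, sub_zero]
        rw [this, add_zero]
      have : A * A = A * (star v * v) - A * (star v * v) * z := by
        conv_lhs => rw [hAdef]
        rw [← hAdef, mul_sub, mul_assoc A]
      rw [this, hAv, hAz, zero_mul, sub_zero]
    have hA0 : A = 0 := by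
      have : star A * A = 0 := by rw [hAsa]; exact hAA
      exact (CStarRing.star_mul_self_eq_zero_iff A).1 this
    rw [e1]; exact hA0
  have hv := (CStarRing.star_mul_self_eq_zero_iff (v - v * z)).1 hA
  exact (sub_eq_zero.1 hv).symm

theorem vvv : v * star v * v = v := by
  have h2 := vz hz hzv h0 h1
  rw [← h1, mul_add, ← mul_assoc v v (star v), h0, zero_mul, add_zero, ← mul_assoc] at h2
  exact h2

end rel

/-- The relations of a halving. -/
structure Hv (z v : H →L[ℂ] H) : Prop where
  pr : IsPr z
  vv : v * v = 0
  sum : star v * v + v * star v = z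
  zv : z * v = v
  vz : v * z = v
  vsv : v * (star v * v) = v

namespace Hv

variable {z v : H →L[ℂ] H} (h : Hv z v)
include h

theorem vvw (w : H →L[ℂ] H) : v * (v * w) = 0 := by rw [← mul_assoc, h.vv, zero_mul]

theorem ss : star v * star v = 0 := by rw [← star_mul, h.vv, star_zero]

theorem ssw (w : H →L[ℂ] H) : star v * (star v * w) = 0 := by rw [← mul_assoc, h.ss, zero_mul]

theorem vsvw (w : H →L[ℂ] H) : v * (star v * (v * w)) = v * w := by
  rw [← mul_assoc (star v), ← mul_assoc v, h.vsv]

theorem svs : star v * (v * star v) = star v := by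
  have := congrArg star h.vsv
  simpa [star_mul, mul_assoc] using this

theorem svsw (w : H →L[ℂ] H) : star v * (v * (star v * w)) = star v * w := by
  rw [← mul_assoc v, ← mul_assoc (star v), h.svs]

theorem zs : z * star v = star v := by
  have := congrArg star h.vz
  rwa [star_mul, h.pr.1] at this

theorem sz : star v * z = star v := by
  have := congrArg star h.zv
  rwa [star_mul, h.pr.1] at this

theorem prE : IsPr (star v * v) := by
  refine ⟨?_, ?_⟩
  · rw [star_mul, star_star]
  · rw [mul_assoc, h.vsv]

theorem ze : z * (star v * v) = star v * v := by rw [← mul_assoc, h.zs]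

end Hv

theorem Hv.mk' {z v : H →L[ℂ] H} (hz : IsPr z) (hzv : z * v = v * z) (h0 : v * v = 0)
    (h1 : star v * v + v * star v = z) : Hv z v where
  pr := hz
  vv := h0
  sum := h1
  zv := by rw [hzv]; exact NCommAux398.vz hz hzv h0 h1
  vz := NCommAux398.vz hz hzv h0 h1
  vsv := by rw [← mul_assoc]; exact NCommAux398.vvv hz hzv h0 h1

/-- The extension of an element of the corner to the relative commutant. -/
theorem ext_mem {M : VonNeumannAlgebra H} {z v : H →L[ℂ] H} (h : Hv z v) (hv : v ∈ M)
    {y : H →L[ℂ] H} (hy : y ∈ M) (h1 : star v * (v * y) = y) (h2 : y * (star v * v) = y) :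
    y + v * (y * star v) ∈ rcv M v ∧ (y + v * (y * star v)) * (star v * v) = y := by
  have a1 : y * v = 0 := by rw [← h2, mul_assoc, mul_assoc, h.vv, mul_zero, mul_zero]
  have a2 : star v * y = 0 := by rw [← h1, h.ssw]
  have hs : star v ∈ M := star_mem hv
  refine ⟨?_, ?_⟩
  · rw [mem_rcv]
    refine ⟨?_, ?_, ?_⟩
    · exact add_mem hy (mul_mem hv (mul_mem hy hs))
    · rw [add_mul, mul_add, a1, h.vvw, zero_add, add_zero, mul_assoc, mul_assoc, h2]
    · rw [add_mul, mul_add, a2, mul_assoc, mul_assoc, h.ss, mul_zero, mul_zero, add_zero, zero_add,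
        ← mul_assoc v y, ← mul_assoc (star v), h1]
  · rw [add_mul, h2, mul_assoc, mul_assoc, h.ssw, mul_zero, mul_zero, add_zero]

/-- central elements of the relative commutant are central in `M` below `z` -/
theorem cen_of {M : VonNeumannAlgebra H} {z v : H →L[ℂ] H} (hz : IsCP M z) (h : Hv z v)
    (hv : v ∈ M) {c : H →L[ℂ] H} (hc : IsCen (rcv M v) c) : IsCen M (c * z) := by
  have hs : star v ∈ M := star_mem hv
  obtain ⟨hcN, hcc⟩ := hc
  obtain ⟨hcM, hcv, hcs⟩ := mem_rcv.1 hcN
  refine ⟨mul_mem hcM hz.2.1, ?_⟩
  intro a ha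
  have hza : z * a = a * z := hz.2.2 a ha
  have hzz := h.pr.2
  have hcz : c * z = z * c := (hz.2.2 c hcM).symm
  -- pieces
  have key : ∀ y : H →L[ℂ] H, y ∈ M → star v * (v * y) = y → y * (star v * v) = y →
      ∃ x, x * (star v * v) = y ∧ c * x = x * c := by
    intro y hy h1 h2
    obtain ⟨m1, m2⟩ := ext_mem h hv hy h1 h2
    exact ⟨_, m2, hcc _ m1⟩
  obtain ⟨x1, e1, c1⟩ := key (star v * (v * (a * (star v * v))))
    (mul_mem hs (mul_mem hv (mul_mem ha (mul_mem hs hv))))
    (by rw [h.vsvw]) (by
      simp only [mul_assoc, h.vsv])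
  obtain ⟨x2, e2, c2⟩ := key (star v * (v * (a * v)))
    (mul_mem hs (mul_mem hv (mul_mem ha hv)))
    (by rw [h.vsvw]) (by
      simp only [mul_assoc, h.vsv])
  obtain ⟨x3, e3, c3⟩ := key (star v * (a * (star v * v)))
    (mul_mem hs (mul_mem ha (mul_mem hs hv)))
    (by rw [h.svsw]) (by
      simp only [mul_assoc, h.vsv])
  obtain ⟨x4, e4, c4⟩ := key (star v * (a * v))
    (mul_mem hs (mul_mem ha hv))
    (by rw [h.svsw]) (by
      simp only [mul_assoc, h.vsv])
  have hdec : a * z = x1 * (star v * v) + x2 * (star v * v) * star v + v * (x3 * (star v * v)) +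
      v * (x4 * (star v * v)) * star v := by
    have t1 : a * z = z * a * z := by rw [hza, mul_assoc, hzz]
    rw [e1, e2, e3, e4, t1]
    conv_lhs => rw [← h.sum]
    simp only [mul_assoc, add_mul, mul_add]
    abel
  have hce : c * (star v * v) = (star v * v) * c := by
    rw [← mul_assoc, hcs, mul_assoc, hcv, mul_assoc]
  have comm : ∀ x y : H →L[ℂ] H, c * x = x * c → c * y = y * c → c * (x * y) = (x * y) * c := by
    intro x y hx hy
    rw [← mul_assoc, hx, mul_assoc, hy, mul_assoc]
  have hcaz : c * (a * z) = (a * z) * c := by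
    rw [hdec]
    simp only [mul_add, add_mul]
    rw [comm _ _ c1 hce, comm _ _ (comm _ _ c2 hce) hcs, comm _ _ hcv (comm _ _ c3 hce),
      comm _ _ (comm _ _ hcv (comm _ _ c4 hce)) hcs]
  calc c * z * a = c * (z * a) := mul_assoc _ _ _
    _ = c * (a * z) := by rw [hza]
    _ = a * z * c := hcaz
    _ = a * (c * z) := by rw [mul_assoc, hcz]

end NCommAux398

open NCommAux398 in
theorem prove_N_comm (_hcc : L_cc.{u}) : N_comm.{u} := by
  intro H _ _ _ M z v hz hNA hv h0 h1
  have hzv : z * v = v * z := hz.2.2 v hv
  have h : Hv z v := Hv.mk' hz.1 hzv h0 h1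
  have hs : star v ∈ M := star_mem hv
  have hzs : z * star v = star v * z := hz.2.2 _ hs
  refine ⟨rcv M v, fun a => mem_rcv, ⟨hz.1, mem_rcv.2 ⟨hz.2.1, hzv, hzs⟩, ?_⟩, ?_, ?_⟩
  · intro a ha
    exact hz.2.2 a (mem_rcv.1 ha).1
  · -- no abelian projections
    intro p hp hzp hAB
    obtain ⟨hpM, hpv, hps⟩ := mem_rcv.1 hp
    obtain ⟨-, hpr, hab⟩ := hAB
    have hpe : p * (star v * v) = star v * v * p := by
      rw [← mul_assoc, hps, mul_assoc, hpv, mul_assoc]
    have hABe : AB M (p * (star v * v)) := by
      refine ⟨mul_mem hpM (mul_mem hs hv), ⟨?_, ?_⟩, ?_⟩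
      · rw [star_mul, h.prE.1, hpr.1, hpe]
      · rw [mul_assoc, ← mul_assoc (star v * v) p, ← hpe, mul_assoc p, h.prE.2, ← mul_assoc, hpr.2]
      · intro q hq hqpr hqe
        -- basic relations
        have g1 : star v * (v * q) = q := by
          have : star v * v * q = q := by
            conv_lhs => rw [← hqe, ← mul_assoc, ← mul_assoc, ← hpe, mul_assoc p, h.prE.2]
            exact hqe
          rwa [mul_assoc] at this
        have g2 : q * (star v * v) = q := by
          have := congrArg star g1
          rw [star_mul, star_mul, star_star, hqpr.1] at this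
          rwa [mul_assoc] at this
        have g3 : p * q = q := by
          conv_lhs => rw [← hqe, ← mul_assoc, ← mul_assoc, hpr.2]
          exact hqe
        have g4 : q * v = 0 := by rw [← g2, mul_assoc, mul_assoc, h.vv, mul_zero, mul_zero]
        have g5 : star v * q = 0 := by rw [← g1, h.ssw]
        obtain ⟨m1, m2⟩ := ext_mem h hv hq g1 g2
        set x := q + v * (q * star v) with hx
        have hxpr : IsPr x := by
          refine ⟨?_, ?_⟩
          · rw [hx, star_add, star_mul, star_mul, star_star, hqpr.1, mul_assoc]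
          · rw [hx, add_mul, mul_add, mul_add, hqpr.2]
            have t1 : q * (v * (q * star v)) = 0 := by rw [← mul_assoc, g4, zero_mul]
            have t2 : v * (q * star v) * q = 0 := by
              rw [mul_assoc, mul_assoc, g5, mul_zero, mul_zero]
            have t3 : v * (q * star v) * (v * (q * star v)) = v * (q * star v) := by
              have u1 : q * star v * (v * (q * star v)) = q * (star v * v) * (q * star v) := by
                simp only [mul_assoc]
              rw [mul_assoc v, u1, g2, ← mul_assoc q q, hqpr.2]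
            rw [t1, t2, t3, add_zero, zero_add]
        have hpx : p * x = x := by
          rw [hx, mul_add, g3, ← mul_assoc p v, hpv, mul_assoc v p, ← mul_assoc p q, g3]
        obtain ⟨c, hc, hxc⟩ := hab x m1 hxpr hpx
        obtain ⟨hcpr, hcc⟩ := hc
        have hcM : c ∈ M := (mem_rcv.1 hcc.1).1
        have hcz : c * z = z * c := (hz.2.2 c hcM).symm
        refine ⟨c * z, ⟨⟨?_, ?_⟩, cen_of hz h hv hcc⟩, ?_⟩
        · rw [star_mul, hz.1.1, hcpr.1, hcz]
        · rw [mul_assoc, ← mul_assoc z c, ← hcz, mul_assoc c z z, hz.1.2, ← mul_assoc, hcpr.2]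
        · rw [← m2, hxc, mul_assoc c z, ← mul_assoc z p, hzp, mul_assoc]
    have hzpe : z * (p * (star v * v)) = p * (star v * v) := by rw [← mul_assoc, hzp]
    have hpe0 := hNA (p * (star v * v)) (mul_mem hpM (mul_mem hs hv)) hzpe hABe
    have hpz : p * z = p := by
      rw [← hz.2.2 p hpM]; exact hzp
    have hpf : p * (v * star v) = 0 := by
      have e1 : p * (v * star v) = v * (p * (star v * v)) * star v := by
        rw [hpe]
        rw [← mul_assoc p v, hpv, mul_assoc v, mul_assoc v]
        have : star v * v * p * star v = p * star v := by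
          rw [← hpe, mul_assoc p, mul_assoc (star v) v (star v), h.svs]
        rw [this]
      rw [e1, hpe0, mul_zero, zero_mul]
    rw [← hpz, ← h.sum, mul_add, hpe0, hpf, add_zero]
  · intro c hc
    exact cen_of hz h hv hc

end H744R2.KZ
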